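import Mathlib

namespace Pool.Agent.Results.MP_122225_al.Counter

/-- a left invariant finitely additive probability measure on all subsets exists -/
def LeftAmenable (S : Type) [Monoid S] : Prop :=
  ∃ μ : Set S → ℝ, (∀ A, 0 ≤ μ A) ∧ μ Set.univ = 1 ∧
    (∀ A B, Disjoint A B → μ (A ∪ B) = μ A + μ B) ∧ ∀ (a : S) (A : Set S), μ {s | a * s ∈ A} = μ A

/-- real `l_2` of a set -/
abbrev L2 (S : Type) : Type := lp (fun _ : S => ℝ) 2

/-- bounded operators on `l_2` -/
abbrev Op (S : Type) : Type := L2 S →L[ℝ] L2 S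

/-- `M` is the left random walk operator of the family `X` -/
def IsWalk {S ι : Type} [Monoid S] [Fintype ι] (X : ι → S) (M : Op S) : Prop :=
  ∀ (v : L2 S) (t : S),
    HasSum (fun s => v s * ((Nat.card {i // X i * s = t} : ℝ) / Fintype.card ι)) (M v t)

/-- operator norm of the `n`-th power -/
noncomputable def powNorm {S : Type} (M : Op S) (n : ℕ) : ℝ := ‖M ^ n‖

@[ext] structure L where
  n : ℕ
  w : List (Fin 4)
  j : ℕ
  deriving DecidableEq

def ph (m : ℕ) (w : List (Fin 4)) : List (Fin 4) := w.map fun x => if m = 0 then x else 0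

instance : Mul L := ⟨fun x y => ⟨x.n + y.n, ph y.n x.w ++ y.w.drop x.j, y.j + (x.j - y.w.length)⟩⟩
instance : One L := ⟨⟨0, [], 0⟩⟩

lemma mul_def (x y : L) :
    x * y = ⟨x.n + y.n, ph y.n x.w ++ y.w.drop x.j, y.j + (x.j - y.w.length)⟩ := rfl
lemma one_def : (1 : L) = ⟨0, [], 0⟩ := rfl

@[simp] lemma ph_len (m w) : (ph m w).length = w.length := by simp [ph]
@[simp] lemma ph_zero (w) : ph 0 w = w := by simp [ph]
@[simp] lemma ph_nil (m) : ph m [] = [] := rfl
lemma ph_succ (m w) : ph (m + 1) w = List.replicate w.length 0 := by simp [ph]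
lemma ph_ph (m l w) : ph l (ph m w) = ph (m + l) w := by
  simp only [ph, List.map_map]
  congr 1
  funext x
  by_cases h : m = 0 <;> by_cases h' : l = 0 <;> simp [h, h']

instance : Monoid L where
  mul_assoc x y z := by
    simp only [mul_def]
    ext1
    · simp [add_assoc]
    · simp only [List.drop_append, ph_len, List.drop_drop, ← ph_ph]
      simp [ph, List.map_drop]
    · simp only [List.length_append, ph_len, List.length_drop]; omega
  one_mul x := by simp [mul_def, one_def]
  mul_one x := by simp [mul_def, one_def]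

abbrev G := FreeGroup Bool
abbrev S := G × L
abbrev I := (Bool × Bool) ⊕ Fin 9 ⊕ Fin 4 ⊕ Unit

def X : I → S
  | .inl x => (FreeGroup.mk [x], 1)
  | .inr (.inl _) => (1, ⟨0, [], 1⟩)
  | .inr (.inr (.inl q)) => (1, ⟨0, [q], 0⟩)
  | .inr (.inr (.inr _)) => (1, ⟨1, [], 0⟩)

lemma gen : Submonoid.closure (Set.range X) = ⊤ := by
  set T := Submonoid.closure (Set.range X)
  have hX : ∀ i, X i ∈ T := fun i => Submonoid.subset_closure ⟨i, rfl⟩
  have h1 : ∀ l : List (Bool × Bool), ((FreeGroup.mk l, 1) : S) ∈ T := by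
    intro l
    induction l with
    | nil => exact one_mem T
    | cons x l ih => simpa [X] using mul_mem (hX (.inl x)) ih
  have h2 : ∀ j, ((1, ⟨0, [], j⟩) : S) ∈ T := by
    intro j
    induction j with
    | zero => exact one_mem T
    | succ j ih => simpa [X, mul_def] using mul_mem (hX (.inr (.inl 0))) ih
  have h3 : ∀ w j, ((1, ⟨0, w, j⟩) : S) ∈ T := by
    intro w j
    induction w with
    | nil => exact h2 j
    | cons q w ih => simpa [X, mul_def] using mul_mem (hX (.inr (.inr (.inl q)))) ih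
  have h4 : ∀ n w j, ((1, ⟨n, w, j⟩) : S) ∈ T := by
    intro n w j
    induction n with
    | zero => exact h3 w j
    | succ n ih => simpa [X, mul_def, add_comm] using mul_mem (hX (.inr (.inr (.inr ())))) ih
  rw [eq_top_iff]
  rintro ⟨g, n, w, j⟩ -
  simpa [FreeGroup.mk_toWord] using mul_mem (h1 g.toWord) (h4 n w j)

lemma rev (a b : S) : ∃ x y, a * x = b * y := by
  obtain ⟨g, n, w, j⟩ := a
  obtain ⟨g', m, w', j'⟩ := b
  refine ⟨(g⁻¹, ⟨m + 1, List.replicate (j + w'.length) 0, 0⟩),
    (g'⁻¹, ⟨n + 1, List.replicate (j' + w.length) 0, 0⟩), ?_⟩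
  simp [mul_def, ph_succ, add_comm, add_left_comm]

lemma klawe (s x y : S) (h : s * x = s * y) : ∃ t, x * t = y * t := by
  obtain ⟨g, n, w, j⟩ := s
  obtain ⟨g1, m, u, i⟩ := x
  obtain ⟨g2, m', u', i'⟩ := y
  simp only [Prod.mk_mul_mk, Prod.mk.injEq, mul_right_inj, mul_def, L.mk.injEq, add_right_inj] at h
  obtain ⟨rfl, rfl, h2, h3⟩ := h
  have h4 := congrArg List.length h2
  simp only [List.length_append, List.length_drop] at h4
  refine ⟨(1, ⟨1, List.replicate (i + i') 0, 0⟩), ?_⟩
  have := ph_succ 0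
  simp only [zero_add] at this
  simp [mul_def, this]
  omega

lemma not_am : ¬ LeftAmenable S := by
  rintro ⟨μ, h0, h1, h2, h3⟩
  let W : Bool × Bool → Set S := fun x => {s | s.1.toWord.head? = some x}
  have mono : ∀ A B, A ⊆ B → μ A ≤ μ B := by
    intro A B h
    have := h2 A (B \ A) Set.disjoint_sdiff_right
    rw [Set.union_sdiff_cancel h] at this
    linarith [h0 (B \ A)]
  have key : ∀ x : Bool × Bool, 1 ≤ μ (W x) + μ (W (x.1, !x.2)) := by
    intro x
    have e := h2 (W (x.1, !x.2)) (W (x.1, !x.2))ᶜ disjoint_compl_right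
    rw [Set.union_compl_self, h1] at e
    have : (W (x.1, !x.2))ᶜ ⊆ {s | X (.inl x) * s ∈ W x} := by
      intro s hs
      simp only [W, Set.mem_compl_iff, Set.mem_ofPred_eq, X, Prod.fst_mul] at hs ⊢
      rw [FreeGroup.toWord_mul, FreeGroup.toWord_mk, FreeGroup.reduce_singleton, List.singleton_append,
        FreeGroup.reduce.cons, FreeGroup.reduce_toWord]
      cases hw : s.1.toWord with
      | nil => rfl
      | cons hd tl =>
        rw [hw] at hs
        simp only
        rw [if_neg]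
        · rfl
        · rintro ⟨a, b⟩
          apply hs
          simp [a, b]
    have := mono _ _ this
    rw [h3] at this
    linarith
  have dj : ∀ x y, x ≠ y → Disjoint (W x) (W y) := by
    intro x y h
    rw [Set.disjoint_left]
    intro s a b
    exact h (Option.some.inj (Eq.trans (Eq.symm a) b))
  have e1 := h2 _ _ (dj (true, true) (true, false) (by simp))
  have e2 := h2 _ _ (dj (false, true) (false, false) (by simp))
  have e3 := h2 (W (true, true) ∪ W (true, false)) (W (false, true) ∪ W (false, false)) (by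
    simp only [Set.disjoint_union_left, Set.disjoint_union_right]
    refine ⟨⟨?_, ?_⟩, ?_, ?_⟩ <;> exact dj _ _ (by simp))
  have e4 := mono _ _ (Set.subset_univ (W (true, true) ∪ W (true, false) ∪
    (W (false, true) ∪ W (false, false))))
  have k1 := key (true, true)
  have k2 := key (false, true)
  simp only [Bool.not_true] at k1 k2
  linarith

abbrev E := lp (fun _ : S => ℝ) 2

lemma push (f : S → S) (h : S → Option (Fin 4) → S) (hh : ∀ s, ∃ q, h (f s) q = s) :
    ∃ Λ : E →L[ℝ] E, ∀ v t, HasSum (fun s => if f s = t then v s else 0) (Λ v t) := by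
  classical
  let fib : S → Finset S := fun t => (Finset.univ.image (h t)).filter (fun s => f s = t)
  have mem : ∀ t s, s ∈ fib t ↔ f s = t := by
    intro t s
    simp only [fib, Finset.mem_filter, Finset.mem_image, Finset.mem_univ, true_and, and_iff_right_iff_imp]
    rintro rfl
    exact hh s
  have hc : ∀ t, ((fib t).card : ℝ) ≤ 9 := by
    intro t
    have : (fib t).card ≤ 5 := (Finset.card_filter_le _ _).trans (Finset.card_image_le.trans (by simp))
    have : (fib t).card ≤ 9 := by omega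
    exact_mod_cast this
  have bd : ∀ (v : E) (T : Finset S), ∑ t ∈ T, ‖∑ s ∈ fib t, v s‖ ^ (2 : ENNReal).toReal ≤
      (3 * ‖v‖) ^ (2 : ENNReal).toReal := by
    intro v T
    have a1 := lp.sum_rpow_le_norm_rpow (p := 2) (by norm_num) v (T.biUnion fib)
    rw [Finset.sum_biUnion (by
      intro a _ b _ hab
      rw [Function.onFun, Finset.disjoint_left]
      intro s h1 h2
      exact hab (((mem _ _).1 h1).symm.trans ((mem _ _).1 h2)))] at a1
    simp only [ENNReal.toReal_ofNat, Real.rpow_ofNat, Real.norm_eq_abs, sq_abs] at a1 ⊢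
    calc _ ≤ ∑ t ∈ T, 9 * ∑ s ∈ fib t, v s ^ 2 := by
          refine Finset.sum_le_sum fun t _ => (sq_sum_le_card_mul_sum_sq).trans ?_
          exact mul_le_mul_of_nonneg_right (hc t) (by positivity)
      _ ≤ _ := by rw [← Finset.mul_sum]; linarith
  let Λ0 : E →ₗ[ℝ] E :=
    { toFun := fun v => ⟨fun t => ∑ s ∈ fib t, v s, memℓp_gen' (bd v)⟩
      map_add' := fun v w => by
        ext t
        change ∑ s ∈ fib t, (v s + w s) = ∑ s ∈ fib t, v s + ∑ s ∈ fib t, w s
        exact Finset.sum_add_distrib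
      map_smul' := fun c v => by ext t; simp [Finset.mul_sum] }
  refine ⟨Λ0.mkContinuous 3 fun v => lp.norm_le_of_forall_sum_le (by norm_num) (by positivity) (bd v),
    fun v t => ?_⟩
  have : HasSum (fun s => if f s = t then v s else 0) (∑ s ∈ fib t, if f s = t then v s else 0) :=
    hasSum_sum_of_ne_finset_zero fun s hs => if_neg (fun h1 => hs ((mem _ _).2 h1))
  rwa [Finset.sum_congr rfl (fun s hs => if_pos ((mem _ _).1 hs))] at this

lemma sect (i : I) : ∃ h : S → Option (Fin 4) → S, ∀ s, ∃ q, h (X i * s) q = s := by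
  rcases i with x | _ | q | _
  · exact ⟨fun t _ => ((FreeGroup.mk [x])⁻¹ * t.1, t.2), fun s => ⟨none, by
      simp only [X, Prod.fst_mul, Prod.snd_mul, one_mul, inv_mul_cancel_left]⟩⟩
  · refine ⟨fun t q => match q with
      | none => (t.1, ⟨t.2.n, [], t.2.j - 1⟩)
      | some q => (t.1, ⟨t.2.n, q :: t.2.w, t.2.j⟩), ?_⟩
    rintro ⟨g, n, _ | ⟨q, w⟩, j⟩
    · exact ⟨none, by simp [X, mul_def]⟩
    · exact ⟨some q, by simp [X, mul_def]⟩
  · exact ⟨fun t _ => (t.1, ⟨t.2.n, t.2.w.tail, t.2.j⟩), fun s => ⟨none, by simp [X, mul_def, ph]⟩⟩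
  · exact ⟨fun t _ => (t.1, ⟨t.2.n - 1, t.2.w, t.2.j⟩), fun s => ⟨none, by simp [X, mul_def]⟩⟩

lemma exM : ∃ M : E →L[ℝ] E, ∀ v t,
    HasSum (fun s => v s * ((Nat.card {i // X i * s = t} : ℝ) / Fintype.card I)) (M v t) := by
  classical
  choose h hh using sect
  choose Λ hΛ using fun i => push (fun s => X i * s) (h i) (hh i)
  refine ⟨(Fintype.card I : ℝ)⁻¹ • ∑ i, Λ i, fun v t => ?_⟩
  have := (hasSum_sum (s := Finset.univ) fun i _ => hΛ i v t).mul_left (Fintype.card I : ℝ)⁻¹
  have e1 : (fun s => v s * ((Nat.card {i // X i * s = t} : ℝ) / Fintype.card I)) =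
      fun s => (Fintype.card I : ℝ)⁻¹ * ∑ i, if X i * s = t then v s else 0 := by
    funext s
    rw [Nat.card_eq_fintype_card, Fintype.card_subtype, ← Finset.sum_filter, Finset.sum_const,
      nsmul_eq_mul]
    ring
  have e2 : (((Fintype.card I : ℝ)⁻¹ • ∑ i, Λ i) v) t = (Fintype.card I : ℝ)⁻¹ * ∑ i, Λ i v t := by
    rw [smul_apply, lp.coeFn_smul, Pi.smul_apply, smul_eq_mul, sum_apply,
      lp.coeFn_sum, Finset.sum_apply]
  rw [e1, e2]
  exact this

def Wl : ℕ → Finset (List (Fin 4))
  | 0 => {[]}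
  | n + 1 => (Finset.univ ×ˢ Wl n).image fun p => p.1 :: p.2

lemma Wl_card (n : ℕ) : (Wl n).card ≤ 4 ^ n := by
  induction n with
  | zero => simp [Wl]
  | succ n ih =>
    refine Finset.card_image_le.trans ?_
    rw [Finset.card_product, Finset.card_univ, Fintype.card_fin, pow_succ]; omega

lemma Wl_mem (w : List (Fin 4)) : w ∈ Wl w.length := by
  induction w with
  | nil => simp [Wl]
  | cons q w ih => exact Finset.mem_image.2 ⟨(q, w), by simp [ih], rfl⟩

def bw (w : List (Fin 4)) : S := (1, ⟨0, w, 0⟩)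

lemma lower (M : E →L[ℝ] E) (hM : ∀ v t,
    HasSum (fun s => v s * ((Nat.card {i // X i * s = t} : ℝ) / Fintype.card I)) (M v t)) (n : ℕ) :
    1 ≤ ‖M ^ n‖ := by
  classical
  let F : Finset S := (Wl n).image bw
  have bd : ∀ T : Finset S, ∑ t ∈ T, ‖(if t ∈ F then (1 : ℝ) else 0)‖ ^ (2 : ENNReal).toReal ≤
      ((2 : ℝ) ^ n) ^ (2 : ENNReal).toReal := by
    intro T
    simp only [ENNReal.toReal_ofNat, Real.rpow_ofNat, Real.norm_eq_abs, sq_abs, ite_pow, one_pow]
    norm_num
    have : (T ∩ F).card ≤ 4 ^ n :=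
      (Finset.card_le_card Finset.inter_subset_right).trans (Finset.card_image_le.trans (Wl_card n))
    rw [← pow_mul, mul_comm, pow_mul]
    norm_num
    exact_mod_cast this
  let v : E := ⟨fun t => if t ∈ F then 1 else 0, memℓp_gen' bd⟩
  have hv : ‖v‖ ≤ 2 ^ n := lp.norm_le_of_forall_sum_le (by norm_num) (by positivity) bd
  have key : ∀ m, (∀ t, 0 ≤ (M ^ m) v t) ∧
      ∀ w : List (Fin 4), w.length + m = n → 2 ^ m ≤ (M ^ m) v (bw w) := by
    intro m
    induction m with
    | zero =>
      refine ⟨fun t => ?_, fun w hw => ?_⟩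
      · change 0 ≤ ite _ _ _
        split_ifs <;> norm_num
      · change _ ≤ ite _ _ _
        rw [if_pos (Finset.mem_image.2 ⟨w, by rw [← hw]; exact Wl_mem w, rfl⟩)]
        norm_num
    | succ m ih =>
      have e : (M ^ (m + 1)) v = M ((M ^ m) v) := by rw [pow_succ']; rfl
      rw [e]
      have nn : ∀ t s, 0 ≤ (M ^ m) v s * ((Nat.card {i // X i * s = t} : ℝ) / Fintype.card I) :=
        fun t s => mul_nonneg (ih.1 s) (by positivity)
      refine ⟨fun t => (hM _ t).nonneg (nn t), fun w hw => ?_⟩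
      have a1 := sum_le_hasSum (Finset.univ.image fun q : Fin 4 => bw (q :: w)) (fun s _ => nn _ s)
        (hM ((M ^ m) v) (bw w))
      rw [Finset.sum_image (by intro a _ b _ h; simpa [bw] using h)] at a1
      refine le_trans ?_ a1
      have a2 : ∀ q : Fin 4, (2 : ℝ) ^ m * (1 / 2) ≤ (M ^ m) v (bw (q :: w)) *
          ((Nat.card {i // X i * bw (q :: w) = bw w} : ℝ) / Fintype.card I) := by
        intro q
        refine mul_le_mul (ih.2 _ (by simp; omega)) ?_ (by norm_num) (ih.1 _)
        have : Nat.card (Fin 9) ≤ Nat.card {i // X i * bw (q :: w) = bw w} :=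
          Nat.card_le_card_of_injective
            (fun i => ⟨.inr (.inl i), by simp [X, bw, mul_def]⟩) (fun a b h => by simpa using congrArg Subtype.val h)
        have h9 : (9 : ℝ) ≤ Nat.card {i // X i * bw (q :: w) = bw w} := by
          rw [Nat.card_fin] at this; exact_mod_cast this
        have hI : (Fintype.card I : ℝ) = 18 := by simp
        rw [hI]; linarith
      refine le_trans (le_of_eq ?_) (Finset.sum_le_sum fun q _ => a2 q)
      simp; ring
  have b1 := (key n).2 [] (by simp)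
  have b2 := lp.norm_apply_le_norm (p := 2) (by norm_num) ((M ^ n) v) (bw [])
  have b3 := (M ^ n).le_opNorm v
  have b4 := le_abs_self ((M ^ n) v (bw []))
  rw [Real.norm_eq_abs] at b2
  have b5 : (0 : ℝ) < 2 ^ n := by positivity
  have b6 := mul_le_mul_of_nonneg_left hv (norm_nonneg (M ^ n))
  by_contra hc
  nlinarith

theorem result : ∃ (S : Type) (_ : Monoid S) (ι : Type) (_ : Fintype ι) (X : ι → S),
    Submonoid.closure (Set.range X) = ⊤ ∧
    (∀ a b : S, ∃ x y, a * x = b * y) ∧
    (∀ s x y : S, s * x = s * y → ∃ t, x * t = y * t) ∧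
    (∃ M : Op S, IsWalk X M ∧ ∀ n : ℕ, 1 ≤ powNorm M n) ∧
    ¬ LeftAmenable S := by
  obtain ⟨M, hM⟩ := exM
  exact ⟨S, inferInstance, I, inferInstance, X, gen, rev, klawe, ⟨M, hM, lower M hM⟩, not_am⟩

end Pool.Agent.Results.MP_122225_al.Counter
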